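import Pool.Agent.T9h29.HC.Spec

/-!
The model of the shifted moment.
-/

set_option autoImplicit false

namespace Pool.Agent.T9h64.HC

open Complex Filter Topology MeasureTheory Set
open Pool.Agent.R304.SG (Z Z_cont)
open Pool.Agent.R304.GR (vt psi)
open Pool.Agent.Y969.GP (ff ht lam FR PS)
open Pool.Agent.N879.PZ (DN ee Par)
open Pool.Agent.T9h29.HC

lemma mem_FR {N : ℕ} {p : ℕ × ℕ} (h : p ∈ FR N) :
    (1 ≤ p.1 ∧ p.1 ≤ N) ∧ (1 ≤ p.2 ∧ p.2 ≤ N) ∧ p.1 * p.2 ≤ N := by
  unfold FR PS at h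
  simp only [Finset.mem_filter, Finset.mem_product, Finset.mem_Icc] at h
  exact ⟨h.1.1.1, h.1.1.2, h.1.2⟩

lemma card_FR (N : ℕ) : (FR N).card ≤ N ^ 2 := by
  unfold FR PS
  refine (Finset.card_filter_le _ _).trans ((Finset.card_filter_le _ _).trans ?_)
  rw [Finset.card_product, Nat.card_Icc]
  simp [pow_two]

theorem model : S_LOG → S_MODEL := by
  rintro ⟨C, hC, h⟩
  refine ⟨C, hC, ?_⟩
  intro T U a N c hP hc0 hcU
  obtain ⟨hT, hU, hUT, ha, haT, hN1, hNT, hNU⟩ := hP
  have hT0 : 0 < T := by linarith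
  have hT1 : 1 ≤ T := by linarith
  have hpow : ∀ e : ℝ, e ≤ 1 → T ^ e ≤ T := fun e he => by
    calc T ^ e ≤ T ^ (1 : ℝ) := Real.rpow_le_rpow_of_exponent_le hT1 he
      _ = T := Real.rpow_one T
  have hcT : c ≤ T := hcU.trans (hUT.trans (hpow _ (by norm_num)))
  have hNT' : (N : ℝ) ≤ T := hNT.trans (hpow _ (by norm_num))
  have hlog : 0 < Real.log T := Real.log_pos (by linarith)
  have hN0 : (0 : ℝ) < N := by exact_mod_cast hN1
  have hlN : Real.log N ≤ Real.log T / 16 := by
    have h1 := Real.log_le_log hN0 hNT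
    rw [Real.log_rpow hT0] at h1
    linarith
  set w : ℕ × ℕ → ℝ → ℂ := fun p t => Z t * ((((√(ht p))⁻¹ *
    (Real.log (max (t + c) 1 / (2 * Real.pi * ht p)) + 2 * Real.eulerMascheroniConstant) : ℝ) :
      ℂ) * ee (t + c) p) with hw
  have e1 : ∀ t, Z t * DN N (t + c) = ∑ p ∈ FR N, w p t := by
    intro t
    unfold DN
    rw [Finset.mul_sum]
  have hht : ∀ p ∈ FR N, (1 : ℝ) ≤ ht p := by
    intro p hp
    obtain ⟨h1, h2, -⟩ := mem_FR hp
    unfold ht
    have h3 : 1 ≤ p.1 * p.2 := Nat.one_le_iff_ne_zero.2 (by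
      intro h4
      rcases Nat.mul_eq_zero.1 h4 with h5 | h5 <;> omega)
    exact_mod_cast h3
  have hcont : ∀ p ∈ FR N, Continuous (w p) := by
    intro p hp
    have hh := hht p hp
    refine Z_cont.mul (Continuous.mul ?_ ?_)
    · refine Complex.continuous_ofReal.comp (continuous_const.mul
        ((Continuous.log ?_ ?_).add continuous_const))
      · exact ((continuous_id.add continuous_const).max continuous_const).div_const _
      · intro t
        have h1 : 0 < max (t + c) 1 := lt_of_lt_of_le one_pos (le_max_right _ _)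
        have h2 : 0 < Real.pi := Real.pi_pos
        have h3 : 0 < ht p := by linarith
        positivity
    · unfold ee
      exact Complex.continuous_exp.comp (continuous_const.mul (Complex.continuous_ofReal.comp
        ((continuous_id.add continuous_const).mul continuous_const)))
  have hterm : ∀ p ∈ FR N, ‖∫ t in a..T, w p t‖ ≤ C * T ^ (25 / 32 : ℝ) * Real.log T := by
    intro p hp
    obtain ⟨h1, h2, h3⟩ := mem_FR hp
    have hh := hht p hp
    have hhT : ht p ≤ T := by
      unfold ht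
      have h4 : ((p.1 * p.2 : ℕ) : ℝ) ≤ N := by exact_mod_cast h3
      push_cast at h4
      linarith
    have hl : |lam p| ≤ Real.log T / 16 := by
      unfold lam
      have a1 : (1 : ℝ) ≤ p.1 := by exact_mod_cast h1.1
      have a2 : (p.1 : ℝ) ≤ N := by exact_mod_cast h1.2
      have b1 : (1 : ℝ) ≤ p.2 := by exact_mod_cast h2.1
      have b2 : (p.2 : ℝ) ≤ N := by exact_mod_cast h2.2
      have a3 := Real.log_nonneg a1
      have b3 := Real.log_nonneg b1
      have a4 := Real.log_le_log (by linarith) a2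
      have b4 := Real.log_le_log (by linarith) b2
      rw [abs_le]
      constructor <;> linarith
    have e2 : ∀ t, w p t = (((√(ht p))⁻¹ : ℝ) : ℂ) * (Z t *
        (((Real.log (max (t + c) 1 / (2 * Real.pi * ht p)) +
          2 * Real.eulerMascheroniConstant : ℝ) : ℂ) *
          cexp (I * (((t + c) * lam p : ℝ) : ℂ)))) := by
      intro t
      simp only [hw, ee]
      push_cast
      ring
    have e3 : (∫ t in a..T, w p t) = (((√(ht p))⁻¹ : ℝ) : ℂ) * ∫ t in a..T, (Z t *
        (((Real.log (max (t + c) 1 / (2 * Real.pi * ht p)) +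
          2 * Real.eulerMascheroniConstant : ℝ) : ℂ) *
          cexp (I * (((t + c) * lam p : ℝ) : ℂ)))) := by
      rw [← intervalIntegral.integral_const_mul]
      exact intervalIntegral.integral_congr fun t _ => e2 t
    have h5 := h a T (lam p) c (ht p) hT ha haT hl hc0 hcT hh hhT
    rw [e3, norm_mul]
    have h6 : ‖(((√(ht p))⁻¹ : ℝ) : ℂ)‖ ≤ 1 := by
      rw [Complex.norm_real, Real.norm_eq_abs, abs_of_nonneg (by positivity)]
      apply inv_le_one_of_one_le₀
      rw [Real.one_le_sqrt]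
      exact hh
    calc _ ≤ 1 * (C * T ^ (25 / 32 : ℝ) * Real.log T) :=
          mul_le_mul h6 h5 (norm_nonneg _) zero_le_one
      _ = _ := one_mul _
  have e4 : (∫ t in a..T, Z t * DN N (t + c)) = ∑ p ∈ FR N, ∫ t in a..T, w p t := by
    rw [← intervalIntegral.integral_finset_sum fun p hp => (hcont p hp).intervalIntegrable _ _]
    exact intervalIntegral.integral_congr fun t _ => e1 t
  rw [e4]
  have hK : 0 ≤ C * T ^ (25 / 32 : ℝ) * Real.log T := by positivity
  calc ‖∑ p ∈ FR N, ∫ t in a..T, w p t‖ ≤ ∑ p ∈ FR N, ‖∫ t in a..T, w p t‖ := norm_sum_le _ _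
    _ ≤ ∑ p ∈ FR N, C * T ^ (25 / 32 : ℝ) * Real.log T := Finset.sum_le_sum hterm
    _ = ((FR N).card : ℝ) * (C * T ^ (25 / 32 : ℝ) * Real.log T) := by
      rw [Finset.sum_const, nsmul_eq_mul]
    _ ≤ ((N : ℝ) ^ 2) * (C * T ^ (25 / 32 : ℝ) * Real.log T) := by
      apply mul_le_mul_of_nonneg_right _ hK
      exact_mod_cast card_FR N
    _ ≤ ((T ^ (1 / 16 : ℝ)) ^ 2) * (C * T ^ (25 / 32 : ℝ) * Real.log T) := by
      apply mul_le_mul_of_nonneg_right _ hK
      exact pow_le_pow_left₀ hN0.le hNT 2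
    _ = C * T ^ (29 / 32 : ℝ) * Real.log T := by
      have e5 : T ^ (29 / 32 : ℝ) = (T ^ (1 / 16 : ℝ)) ^ 2 * T ^ (25 / 32 : ℝ) := by
        rw [← Real.rpow_natCast, ← Real.rpow_mul hT0.le, ← Real.rpow_add hT0]
        norm_num
      rw [e5]
      ring

end Pool.Agent.T9h64.HC
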